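import Pool.Agent.W788.BK.Stm

/-! BK-CONC: concentration of `Im ⟨w, R w⟩` by moment doubling. -/

set_option autoImplicit false
set_option linter.unusedSectionVars false

open scoped BigOperators Matrix
open MeasureTheory

namespace Pool.Agent.W340.BK.Conc

open Pool.Agent.W788.BK

variable {n m : Type} [Fintype n] [DecidableEq n] [Fintype m] [DecidableEq m]

instance (μ : Measure ℝ) [IsProbabilityMeasure μ] : IsProbabilityMeasure (PP m μ) := by
  unfold PP; infer_instance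

/-- the functional -/
noncomputable def FF (X0 : Matrix n n ℂ) (A : m → Matrix n n ℂ) (η : ℝ) (w : n → ℂ)
    (V : m → ℝ) : ℝ := (star w ⬝ᵥ (RR X0 A η V *ᵥ w)).im

section
variable {X0 : Matrix n n ℂ} {A : m → Matrix n n ℂ} {η : ℝ}

theorem RR_cont (h0 : X0.IsHermitian) (hA : ∀ y, (A y).IsHermitian) (hη : 0 < η) :
    Continuous (RR X0 A η) := by
  have h1 : Continuous fun V : m → ℝ =>
      (XX X0 A V - ((η : ℂ) * Complex.I) • (1 : Matrix n n ℂ)) := by
    unfold XX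
    refine Continuous.sub (continuous_const.add (continuous_finsetSum _ fun y _ => ?_))
      continuous_const
    exact (Complex.continuous_ofReal.comp (continuous_apply y)).smul continuous_const
  have h2 : (RR X0 A η) = fun V : m → ℝ =>
      ((XX X0 A V - ((η : ℂ) * Complex.I) • (1 : Matrix n n ℂ)).det)⁻¹ •
        (XX X0 A V - ((η : ℂ) * Complex.I) • (1 : Matrix n n ℂ)).adjugate := by
    funext V
    unfold RR
    rw [Matrix.inv_def, Ring.inverse_eq_inv']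
  rw [h2]
  refine Continuous.smul (Continuous.inv₀ h1.matrix_det fun V => ?_) h1.matrix_adjugate
  exact ((Matrix.isUnit_iff_isUnit_det _).1 (isUnit_shift (XX_herm h0 hA V) η hη)).ne_zero

theorem FF_cont (h0 : X0.IsHermitian) (hA : ∀ y, (A y).IsHermitian) (hη : 0 < η) (w : n → ℂ) :
    Continuous (FF X0 A η w) := by
  unfold FF
  exact Complex.continuous_im.comp (continuous_const.dotProduct
    ((RR_cont h0 hA hη).matrix_mulVec continuous_const))

theorem FF_nonneg (h0 : X0.IsHermitian) (hA : ∀ y, (A y).IsHermitian) (hη : 0 < η) (w : n → ℂ)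
    (V : m → ℝ) : 0 ≤ FF X0 A η w V := by
  unfold FF
  rw [(ward h0 hA hη V w).1]
  exact mul_nonneg hη.le (nsq_nonneg _)

theorem FF_le (h0 : X0.IsHermitian) (hA : ∀ y, (A y).IsHermitian) (hη : 0 < η) (w : n → ℂ)
    (V : m → ℝ) : FF X0 A η w V ≤ η⁻¹ * nsq w := by
  unfold FF
  rw [(ward h0 hA hη V w).1]
  have := mul_le_mul_of_nonneg_left (RR_bd h0 hA hη V w) hη.le
  refine this.trans (le_of_eq ?_)
  field_simp

theorem key {a v2 Q β D : ℝ} (H : Adm X0 A a v2 Q) (hβ : 0 < β) (hη : 0 < η)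
    (hv : β ^ 2 * v2 ≤ 1) (hD : 2 * β ^ 2 / η ^ 2 * (Q + a ^ 2 / η ^ 2) ≤ D ^ 2) (w : n → ℂ)
    (V : m → ℝ) (hV : ∀ y, |V y| ≤ β) :
    ∑ y, |FF X0 A η w V - FF X0 A η w (Function.update V y 0)| ^ 2 ≤
      D ^ 2 * FF X0 A η w V ^ 2 := by
  obtain ⟨h0, hA, ha0, hv0, hQ0, ha, hvv, hQ⟩ := H
  set R := RR X0 A η V with hR
  set u := R *ᵥ w with hu
  set v := Rᴴ *ᵥ w with hv'
  set F := FF X0 A η w V with hF
  have hF0 : 0 ≤ F := FF_nonneg h0 hA hη w V
  have Fu : F = η * nsq u := (ward h0 hA hη V w).1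
  have Fv : F = η * nsq v := (ward h0 hA hη V w).2
  have nu : nsq u = F / η := by rw [Fu]; field_simp
  have nv : nsq v = F / η := by rw [Fv]; field_simp
  have s1 : ∑ y, ‖star v ⬝ᵥ (A y *ᵥ u)‖ ^ 2 ≤ Q * (F / η) ^ 2 := by
    have h1 := hQ (Matrix.vecMulVec u (star v))
    rw [hs_rank, nu, nv] at h1
    simp only [trace_rank] at h1
    rw [sq (F / η)]
    exact h1
  have s2 : ∑ y, ‖star v ⬝ᵥ (A y *ᵥ (RR X0 A η (Function.update V y 0) *ᵥ (A y *ᵥ u)))‖ ^ 2 ≤
      a ^ 2 * v2 / η ^ 2 * (F / η) ^ 2 := by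
    have h1 : ∀ y, ‖star v ⬝ᵥ (A y *ᵥ (RR X0 A η (Function.update V y 0) *ᵥ (A y *ᵥ u)))‖ ^ 2 ≤
        (a ^ 2 * (F / η) * (η ^ 2)⁻¹) * nsq (A y *ᵥ u) := by
      intro y
      rw [herm (hA y)]
      refine (cs_star _ _).trans ?_
      have e1 : nsq (A y *ᵥ v) ≤ a ^ 2 * (F / η) := by rw [← nv]; exact ha y v
      have e2 := RR_bd h0 hA hη (Function.update V y 0) (A y *ᵥ u)
      calc nsq (A y *ᵥ v) * nsq (RR X0 A η (Function.update V y 0) *ᵥ (A y *ᵥ u))
          ≤ (a ^ 2 * (F / η)) * ((η ^ 2)⁻¹ * nsq (A y *ᵥ u)) :=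
            mul_le_mul e1 e2 (nsq_nonneg _) (by positivity)
        _ = _ := by ring
    refine (Finset.sum_le_sum fun y _ => h1 y).trans ?_
    rw [← Finset.mul_sum]
    have h2 := hvv u
    rw [nu] at h2
    calc _ ≤ (a ^ 2 * (F / η) * (η ^ 2)⁻¹) * (v2 * (F / η)) :=
          mul_le_mul_of_nonneg_left h2 (by positivity)
      _ = _ := by ring
  have s3 : ∀ y, |F - FF X0 A η w (Function.update V y 0)| ^ 2 ≤
      2 * β ^ 2 * ‖star v ⬝ᵥ (A y *ᵥ u)‖ ^ 2 + 2 * β ^ 4 *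
      ‖star v ⬝ᵥ (A y *ᵥ (RR X0 A η (Function.update V y 0) *ᵥ (A y *ᵥ u)))‖ ^ 2 := by
    intro y
    obtain ⟨r1, r2⟩ := RR_update h0 hA hη V y
    set R' := RR X0 A η (Function.update V y 0) with hR'
    rw [← hR] at r1 r2
    have r3 : R - R' = -((V y : ℂ) • (R * A y * R)) - ((V y : ℂ) ^ 2) •
        (R * A y * R' * A y * R) := by
      have r4 : R' = R + (V y : ℂ) • (R' * A y * R) := sub_eq_iff_eq_add.1 r2.symm
      have r7 : R - R' = -((V y : ℂ) • (R * A y * R')) := by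
        rw [sub_eq_iff_eq_add, neg_add_eq_sub]; exact r1
      have r8 : R * A y * R' = R * A y * R + (V y : ℂ) • (R * A y * R' * A y * R) := by
        conv_lhs => rw [r4]
        rw [mul_add, mul_smul_comm]
        simp only [mul_assoc]
      have r9 := congrArg (fun t => -((V y : ℂ) • t)) r8
      rw [r7, r9, smul_add, smul_smul, ← sq]
      abel
    have r5 : F - FF X0 A η w (Function.update V y 0) =
        (-((V y : ℂ) * (star v ⬝ᵥ (A y *ᵥ u))) - ((V y : ℂ) ^ 2) *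
        (star v ⬝ᵥ (A y *ᵥ (R' *ᵥ (A y *ᵥ u))))).im := by
      have t1 : F - FF X0 A η w (Function.update V y 0) = (star w ⬝ᵥ ((R - R') *ᵥ w)).im := by
        rw [Matrix.sub_mulVec, dotProduct_sub, Complex.sub_im]
        rfl
      rw [t1, r3, Matrix.sub_mulVec, dotProduct_sub, Matrix.neg_mulVec, Matrix.smul_mulVec,
        Matrix.smul_mulVec, dotProduct_neg, dotProduct_smul, dotProduct_smul]
      simp only [← Matrix.mulVec_mulVec, smul_eq_mul]
      rw [adjoint R, adjoint R]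
    have r6 : |F - FF X0 A η w (Function.update V y 0)| ≤ β * ‖star v ⬝ᵥ (A y *ᵥ u)‖ +
        β ^ 2 * ‖star v ⬝ᵥ (A y *ᵥ (R' *ᵥ (A y *ᵥ u)))‖ := by
      rw [r5]
      refine (Complex.abs_im_le_norm _).trans ((norm_sub_le _ _).trans ?_)
      rw [norm_neg, norm_mul, norm_mul, norm_pow, Complex.norm_real, Real.norm_eq_abs]
      refine add_le_add (mul_le_mul_of_nonneg_right (hV y) (norm_nonneg _))
        (mul_le_mul_of_nonneg_right ?_ (norm_nonneg _))
      exact pow_le_pow_left₀ (abs_nonneg _) (hV y) 2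
    refine (pow_le_pow_left₀ (abs_nonneg _) r6 2).trans ?_
    nlinarith [sq_nonneg (β * ‖star v ⬝ᵥ (A y *ᵥ u)‖ -
        β ^ 2 * ‖star v ⬝ᵥ (A y *ᵥ (R' *ᵥ (A y *ᵥ u)))‖)]
  refine (Finset.sum_le_sum fun y _ => s3 y).trans ?_
  rw [Finset.sum_add_distrib, ← Finset.mul_sum, ← Finset.mul_sum]
  calc _ ≤ 2 * β ^ 2 * (Q * (F / η) ^ 2) + 2 * β ^ 4 * (a ^ 2 * v2 / η ^ 2 * (F / η) ^ 2) :=
        add_le_add (mul_le_mul_of_nonneg_left s1 (by positivity))
          (mul_le_mul_of_nonneg_left s2 (by positivity))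
    _ = 2 * β ^ 2 / η ^ 2 * (Q + (β ^ 2 * v2) * (a ^ 2 / η ^ 2)) * F ^ 2 := by
        field_simp
    _ ≤ 2 * β ^ 2 / η ^ 2 * (Q + a ^ 2 / η ^ 2) * F ^ 2 := by
        refine mul_le_mul_of_nonneg_right (mul_le_mul_of_nonneg_left ?_ (by positivity))
          (sq_nonneg _)
        have : (β ^ 2 * v2) * (a ^ 2 / η ^ 2) ≤ 1 * (a ^ 2 / η ^ 2) :=
          mul_le_mul_of_nonneg_right hv (by positivity)
        linarith
    _ ≤ D ^ 2 * F ^ 2 := mul_le_mul_of_nonneg_right hD (sq_nonneg _)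

end

theorem update_le {x y D : ℝ} (h : |x - y| ^ 2 ≤ D ^ 2 * x ^ 2) (hx : 0 ≤ x) (hD : 0 ≤ D) :
    y ≤ (1 + D) * x := by
  have h1 : |x - y| ≤ D * x := by
    rw [← mul_pow] at h
    exact le_of_sq_le_sq h (by positivity)
  have := (abs_le.1 h1).1
  linarith

theorem le_of_sq_le_sq' {x y : ℝ} (h : x ^ 2 ≤ y ^ 2) (hy : 0 ≤ y) : x ≤ y :=
  abs_le_of_sq_le_sq' h hy |>.2

/-- powers -/
theorem pow_key {ι : Type} [Fintype ι] (x D : ℝ) (y : ι → ℝ) (hx : 0 ≤ x) (hy : ∀ i, 0 ≤ y i)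
    (hD : 0 ≤ D) (h : ∑ i, |x - y i| ^ 2 ≤ D ^ 2 * x ^ 2) (p : ℕ) (hp : 1 ≤ p)
    (hpD : p * D ≤ 1 / 4) : ∑ i, |x ^ p - y i ^ p| ^ 2 ≤ 2 * p ^ 2 * D ^ 2 * x ^ (2 * p) := by
  have h1 : ∀ i, |x - y i| ^ 2 ≤ D ^ 2 * x ^ 2 := fun i =>
    (Finset.single_le_sum (f := fun i => |x - y i| ^ 2) (fun _ _ => by positivity)
      (Finset.mem_univ i)).trans h
  have h2 : ∀ i, |x ^ p - y i ^ p| ^ 2 ≤
      (p ^ 2 * ((1 + D) * x) ^ (2 * (p - 1))) * |x - y i| ^ 2 := by
    intro i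
    have e1 := abs_pow_sub_pow_le x (y i) p
    have e2 : max |x| |y i| ≤ (1 + D) * x := by
      rw [abs_of_nonneg hx, abs_of_nonneg (hy i)]
      refine max_le ?_ (update_le (h1 i) hx hD)
      nlinarith [mul_nonneg hD hx]
    have e3 : |x ^ p - y i ^ p| ≤ |x - y i| * p * ((1 + D) * x) ^ (p - 1) := by
      refine e1.trans (mul_le_mul_of_nonneg_left ?_ (by positivity))
      exact pow_le_pow_left₀ (le_max_of_le_left (abs_nonneg _)) e2 _
    refine (pow_le_pow_left₀ (abs_nonneg _) e3 2).trans (le_of_eq ?_)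
    rw [mul_comm 2 (p - 1), pow_mul]
    ring
  refine (Finset.sum_le_sum fun i _ => h2 i).trans ?_
  rw [← Finset.mul_sum]
  have h3 : (1 + D) ^ (2 * (p - 1)) ≤ 2 := by
    have e1 : (1 + D) ^ (2 * (p - 1)) ≤ Real.exp (1 / 2) := by
      calc (1 + D) ^ (2 * (p - 1)) ≤ (Real.exp D) ^ (2 * (p - 1)) :=
            pow_le_pow_left₀ (by linarith) (by linarith [Real.add_one_le_exp D]) _
        _ = Real.exp ((2 * (p - 1) : ℕ) * D) := by rw [← Real.exp_nat_mul]
        _ ≤ Real.exp (1 / 2) := by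
            refine Real.exp_le_exp.2 ?_
            have : ((2 * (p - 1) : ℕ) : ℝ) ≤ 2 * p := by
              have : 2 * (p - 1) ≤ 2 * p := by omega
              exact_mod_cast this
            nlinarith
    have e2 : Real.exp (1 / 2) ≤ 2 := by
      have h4 : Real.exp (1 / 2) ^ 2 = Real.exp 1 := by
        rw [← Real.exp_nat_mul]; norm_num
      have h5 := Real.exp_one_lt_three
      nlinarith [Real.exp_pos (1 / 2 : ℝ)]
    exact e1.trans e2
  calc (p ^ 2 * ((1 + D) * x) ^ (2 * (p - 1))) * ∑ i, |x - y i| ^ 2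
      ≤ (p ^ 2 * ((1 + D) * x) ^ (2 * (p - 1))) * (D ^ 2 * x ^ 2) :=
        mul_le_mul_of_nonneg_left h (by positivity)
    _ = (1 + D) ^ (2 * (p - 1)) * (p ^ 2 * D ^ 2 * x ^ (2 * p)) := by
        rw [mul_pow]
        have : x ^ (2 * p) = x ^ (2 * (p - 1)) * x ^ 2 := by
          rw [← pow_add]; congr 1; omega
        rw [this]; ring
    _ ≤ 2 * (p ^ 2 * D ^ 2 * x ^ (2 * p)) :=
        mul_le_mul_of_nonneg_right h3 (by positivity)
    _ = _ := by ring

theorem ae_bd (μ : Measure ℝ) [IsProbabilityMeasure μ] (β : ℝ) (h : ∀ᵐ s ∂μ, |s| ≤ β) :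
    ∀ᵐ V ∂(PP m μ), ∀ y, |V y| ≤ β := by
  rw [ae_all_iff]
  intro y
  exact (Measure.quasiMeasurePreserving_eval (fun _ : m => μ) y).ae h

/-- the doubling step -/
theorem step (hES : S_ES) (μ : Measure ℝ) [IsProbabilityMeasure μ] (F : (m → ℝ) → ℝ)
    (hF : Continuous F) (C : ℝ) (hC : ∀ V, F V ≤ C) (hF0 : ∀ V, 0 ≤ F V) (D : ℝ) (hD : 0 ≤ D)
    (h : ∀ᵐ V ∂(PP m μ), ∑ y, |F V - F (Function.update V y 0)| ^ 2 ≤ D ^ 2 * F V ^ 2) (p : ℕ)
    (hp : 1 ≤ p) (hpD : p * D ≤ 1 / 4) :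
    ∫ V, F V ^ (2 * p) ∂(PP m μ) ≤
      Real.exp (4 * p ^ 2 * D ^ 2) * (∫ V, F V ^ p ∂(PP m μ)) ^ 2 := by
  have int1 : ∀ q : ℕ, Integrable (fun V => F V ^ q) (PP m μ) := fun q =>
    Integrable.of_bound (hF.pow q).aestronglyMeasurable (C ^ q) (Filter.Eventually.of_forall
      fun V => by
        rw [Real.norm_eq_abs, abs_of_nonneg (pow_nonneg (hF0 V) q)]
        exact pow_le_pow_left₀ (hF0 V) (hC V) q)
  have hup : ∀ y : m, Continuous fun V : m → ℝ => Function.update V y (0 : ℝ) := fun y =>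
    continuous_id.update y continuous_const
  have bd : ∀ V, ∀ y, |F V ^ p - F (Function.update V y 0) ^ p| ^ 2 ≤ (C ^ p) ^ 2 := by
    intro V y
    refine pow_le_pow_left₀ (abs_nonneg _) ?_ 2
    have e1 := pow_le_pow_left₀ (hF0 V) (hC V) p
    have e2 := pow_le_pow_left₀ (hF0 (Function.update V y 0)) (hC (Function.update V y 0)) p
    have e3 := pow_nonneg (hF0 V) p
    have e4 := pow_nonneg (hF0 (Function.update V y 0)) p
    rw [abs_le]
    constructor <;> linarith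
  have int2 : ∀ y : m, Integrable
      (fun V => |F V ^ p - F (Function.update V y 0) ^ p| ^ 2) (PP m μ) := fun y =>
    Integrable.of_bound ((((hF.pow p).sub ((hF.comp (hup y)).pow p)).abs.pow
      2).aestronglyMeasurable) ((C ^ p) ^ 2) (Filter.Eventually.of_forall fun V => by
        rw [Real.norm_eq_abs, abs_of_nonneg (by positivity)]
        exact bd V y)
  have h1 := hES m μ (fun V => ((F V ^ p : ℝ) : ℂ))
    (Complex.continuous_ofReal.comp (hF.pow p)) ⟨C ^ p, fun V => by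
      rw [Complex.norm_real, Real.norm_eq_abs, abs_of_nonneg (pow_nonneg (hF0 V) p)]
      exact pow_le_pow_left₀ (hF0 V) (hC V) p⟩
  have hI2 : ∫ U, ((F U ^ p : ℝ) : ℂ) ∂(PP m μ) = ((∫ U, F U ^ p ∂(PP m μ) : ℝ) : ℂ) :=
    integral_complex_ofReal
  simp only [hI2] at h1
  simp only [← Complex.ofReal_sub, Complex.norm_real, Real.norm_eq_abs] at h1
  set I := ∫ V, F V ^ p ∂(PP m μ) with hI
  have h2 : ∫ V, |F V ^ p - I| ^ 2 ∂(PP m μ) = ∫ V, F V ^ (2 * p) ∂(PP m μ) - I ^ 2 := by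
    have e1 : ∀ V, |F V ^ p - I| ^ 2 = F V ^ (2 * p) - 2 * I * F V ^ p + I ^ 2 := by
      intro V
      rw [sq_abs, mul_comm 2 p, pow_mul]
      ring
    simp only [e1]
    have i3 : Integrable (fun V => F V ^ (2 * p) - 2 * I * F V ^ p) (PP m μ) :=
      (int1 _).sub ((int1 p).const_mul _)
    rw [integral_add i3 (integrable_const _),
      integral_sub (int1 _) ((int1 p).const_mul _), integral_const_mul, integral_const,
      probReal_univ, ← hI]
    simp only [smul_eq_mul]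
    ring
  have h3 : ∑ y, ∫ V, |F V ^ p - F (Function.update V y 0) ^ p| ^ 2 ∂(PP m μ) ≤
      2 * p ^ 2 * D ^ 2 * ∫ V, F V ^ (2 * p) ∂(PP m μ) := by
    rw [← integral_finsetSum _ fun y _ => int2 y, ← integral_const_mul]
    refine integral_mono_ae (integrable_finsetSum _ fun y _ => int2 y)
      ((int1 _).const_mul _) ?_
    filter_upwards [h] with V hV
    exact pow_key (F V) D (fun y => F (Function.update V y 0)) (hF0 V) (fun y => hF0 _) hD hV p
      hp hpD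
  rw [h2] at h1
  have h4 := h1.trans h3
  set J := ∫ V, F V ^ (2 * p) ∂(PP m μ) with hJ
  have hx : 2 * (p : ℝ) ^ 2 * D ^ 2 ≤ 1 / 8 := by
    have : (p * D : ℝ) ^ 2 ≤ (1 / 4) ^ 2 := pow_le_pow_left₀ (by positivity) hpD 2
    nlinarith
  have hx0 : 0 ≤ 2 * (p : ℝ) ^ 2 * D ^ 2 := by positivity
  obtain ⟨x, hxd⟩ : ∃ x, x = 2 * (p : ℝ) ^ 2 * D ^ 2 := ⟨_, rfl⟩
  have hexp : 4 * (p : ℝ) ^ 2 * D ^ 2 = 2 * x := by rw [hxd]; ring
  rw [hexp]
  rw [← hxd] at h4 hx hx0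
  have h5 := Real.add_one_le_exp (2 * x)
  have h6 : J * (1 - x) ≤ I ^ 2 := by linarith
  have h7 : 1 ≤ (1 - x) * Real.exp (2 * x) := by
    have : (1 - x) * (2 * x + 1) ≤ (1 - x) * Real.exp (2 * x) :=
      mul_le_mul_of_nonneg_left h5 (by linarith)
    nlinarith
  have hJ0 : 0 ≤ J := integral_nonneg fun V => pow_nonneg (hF0 V) _
  calc J ≤ J * ((1 - x) * Real.exp (2 * x)) := le_mul_of_one_le_right hJ0 h7
    _ = Real.exp (2 * x) * (J * (1 - x)) := by ring
    _ ≤ Real.exp (2 * x) * I ^ 2 := mul_le_mul_of_nonneg_left h6 (Real.exp_pos _).le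

theorem conc (h : S_ES) : S_CONC := by
  intro n m _ _ _ _ X0 A a v2 Q H μ _ β η D hβ hμ hη hη1 hv hD0 hD1 hD w
  have h0 := H.hX0
  have hA := H.hA
  obtain ⟨F, hF⟩ : ∃ F : (m → ℝ) → ℝ, F = FF X0 A η w := ⟨_, rfl⟩
  have goal_eq : (fun V => (star w ⬝ᵥ (RR X0 A η V *ᵥ w)).im) = F := hF.symm
  have hFV : ∀ V, (star w ⬝ᵥ (RR X0 A η V *ᵥ w)).im = F V := fun V => congrFun goal_eq V
  simp only [hFV]
  have Fc : Continuous F := by rw [hF]; exact FF_cont h0 hA hη w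
  have F0 : ∀ V, 0 ≤ F V := by rw [hF]; exact FF_nonneg h0 hA hη w
  have FC : ∀ V, F V ≤ η⁻¹ * nsq w := by rw [hF]; exact FF_le h0 hA hη w
  have hae : ∀ᵐ V ∂(PP m μ), ∑ y, |F V - F (Function.update V y 0)| ^ 2 ≤ D ^ 2 * F V ^ 2 := by
    filter_upwards [ae_bd μ β hμ] with V hV
    rw [hF]
    exact key H hβ hη hv hD w V hV
  have st := fun p hp hpD => step h μ F Fc (η⁻¹ * nsq w) FC F0 D hD0.le hae p hp hpD
  set E := ∫ V, F V ∂(PP m μ) with hE
  have hE0 : 0 ≤ E := integral_nonneg F0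
  have int1 : ∀ q : ℕ, Integrable (fun V => F V ^ q) (PP m μ) := fun q =>
    Integrable.of_bound (Fc.pow q).aestronglyMeasurable ((η⁻¹ * nsq w) ^ q)
      (Filter.Eventually.of_forall fun V => by
        rw [Real.norm_eq_abs, abs_of_nonneg (pow_nonneg (F0 V) q)]
        exact pow_le_pow_left₀ (F0 V) (FC V) q)
  have ind : ∀ j : ℕ, (2 : ℝ) ^ j * D ≤ 1 / 2 → ∫ V, F V ^ (2 ^ j) ∂(PP m μ) ≤
      Real.exp (2 ^ j * (2 * D ^ 2 * (2 ^ j - 1))) * E ^ (2 ^ j) := by
    intro j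
    induction j with
    | zero =>
      intro _
      simp [hE]
    | succ j ih =>
      intro hj
      have hj' : (2 : ℝ) ^ j * D ≤ 1 / 4 := by
        rw [pow_succ] at hj; linarith
      have e1 := ih (by linarith)
      have e2 := st (2 ^ j) Nat.one_le_two_pow (by push_cast; exact hj')
      have e0 : 2 * 2 ^ j = 2 ^ (j + 1) := by rw [pow_succ]; ring
      rw [e0] at e2
      refine e2.trans ?_
      have e3 : (∫ V, F V ^ (2 ^ j) ∂(PP m μ)) ^ 2 ≤
          (Real.exp (2 ^ j * (2 * D ^ 2 * (2 ^ j - 1))) * E ^ (2 ^ j)) ^ 2 :=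
        pow_le_pow_left₀ (integral_nonneg fun V => pow_nonneg (F0 V) _) e1 2
      refine (mul_le_mul_of_nonneg_left e3 (Real.exp_pos _).le).trans (le_of_eq ?_)
      rw [mul_pow, ← Real.exp_nat_mul, ← pow_mul, ← mul_assoc, ← Real.exp_add]
      congr 1
      · congr 1
        push_cast
        rw [pow_succ]
        ring
  -- choice of `J`
  have hx1 : 1 ≤ 1 / (4 * D) := by
    rw [le_div_iff₀ (by positivity)]; linarith
  obtain ⟨k, hk1, hk2⟩ := exists_nat_pow_near hx1 (by norm_num : (1 : ℝ) < 2)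
  have hk3 : (2 : ℝ) ^ (k + 1) * D ≤ 1 / 2 := by
    rw [le_div_iff₀ (by positivity)] at hk1
    rw [pow_succ]; linarith
  have e1 := ind (k + 1) hk3
  obtain ⟨N, hN⟩ : ∃ N : ℕ, N = 2 ^ (k + 1) := ⟨_, rfl⟩
  have hNr : (N : ℝ) = 2 ^ (k + 1) := by rw [hN]; push_cast; rfl
  rw [← hN, ← hNr] at e1
  rw [← hNr] at hk2 hk3
  have e2 : Real.exp (N * (2 * D ^ 2 * (N - 1))) ≤ Real.exp (N * (1 / 4)) := by
    refine Real.exp_le_exp.2 (mul_le_mul_of_nonneg_left ?_ (Nat.cast_nonneg _))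
    nlinarith [sq_nonneg D]
  have hEN : 0 ≤ E ^ N := pow_nonneg hE0 N
  have e3 : ∫ V, F V ^ N ∂(PP m μ) ≤ Real.exp (N * (1 / 4)) * E ^ N :=
    e1.trans (mul_le_mul_of_nonneg_right e2 hEN)
  have hlast : Real.exp (-(N : ℝ)) ≤ Real.exp (-(1 / (4 * D))) :=
    Real.exp_le_exp.2 (by linarith)
  rcases hE0.lt_or_eq with hpos | hzero
  · have m1 := mul_meas_ge_le_integral_of_nonneg (μ := PP m μ) (f := fun V => F V ^ N)
      (Filter.Eventually.of_forall fun V => pow_nonneg (F0 V) N) (int1 N) ((8 * E) ^ N)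
    have m2 : (PP m μ).real {V | 8 * E < F V} ≤
        (PP m μ).real {V | (8 * E) ^ N ≤ F V ^ N} := by
      refine measureReal_mono fun V hV => ?_
      exact pow_le_pow_left₀ (by positivity : (0 : ℝ) ≤ 8 * E) (show 8 * E < F V from hV).le N
    have m3 : (8 * E) ^ N * (PP m μ).real {V | 8 * E < F V} ≤
        Real.exp (N * (1 / 4)) * E ^ N :=
      (mul_le_mul_of_nonneg_left m2 (by positivity)).trans (m1.trans e3)
    have m4 : (8 : ℝ) ^ N * (PP m μ).real {V | 8 * E < F V} ≤ Real.exp (N * (1 / 4)) := by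
      have hEp : 0 < E ^ N := pow_pos hpos N
      rw [mul_pow] at m3
      refine le_of_mul_le_mul_right ?_ hEp
      calc _ = 8 ^ N * E ^ N * (PP m μ).real {V | 8 * E < F V} := by ring
        _ ≤ _ := m3
    have m5 : Real.exp (5 / 4) ≤ 8 := by
      have h4 : Real.exp (5 / 4) ≤ Real.exp 2 := Real.exp_le_exp.2 (by norm_num)
      have h6 : Real.exp 2 = Real.exp 1 ^ 2 := by rw [← Real.exp_nat_mul]; norm_num
      have h7 := Real.exp_one_lt_d9
      have h8 := Real.exp_pos (1 : ℝ)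
      rw [h6] at h4
      nlinarith
    have m6 : Real.exp (N * (5 / 4)) ≤ 8 ^ N := by
      rw [Real.exp_nat_mul]
      exact pow_le_pow_left₀ (Real.exp_pos _).le m5 N
    have m7 : Real.exp (N * (5 / 4)) * (PP m μ).real {V | 8 * E < F V} ≤
        Real.exp (N * (1 / 4)) :=
      (mul_le_mul_of_nonneg_right m6 measureReal_nonneg).trans m4
    have m8 : (PP m μ).real {V | 8 * E < F V} ≤ Real.exp (-(N : ℝ)) := by
      refine le_of_mul_le_mul_left ?_ (Real.exp_pos (N * (5 / 4)))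
      rw [← Real.exp_add]
      refine m7.trans (le_of_eq ?_)
      congr 1
      ring
    exact m8.trans hlast
  · have i1 : Integrable F (PP m μ) := by simpa using int1 1
    have z1 := (integral_eq_zero_iff_of_nonneg F0 i1).1 (by rw [← hE]; exact hzero.symm)
    have z2 : (PP m μ).real {V | 8 * E < F V} = 0 := by
      rw [measureReal_def]
      have : (PP m μ) {V | 8 * E < F V} = 0 := by
        rw [← hzero, mul_zero]
        refine measure_mono_null (fun V hV => ?_) (ae_iff.1 z1)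
        intro h
        have hV' : 0 < F V := hV
        rw [h] at hV'
        exact lt_irrefl _ hV'
      rw [this]; rfl
    rw [z2]
    exact (Real.exp_pos _).le

end Pool.Agent.W340.BK.Conc
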